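import Mathlib

/-!
# Degree-preserving amalgamation of real zero polynomials in two shared variables fails

Counterexample in degree `3` with one extra variable on each side:
`p = det [[1 + x₁, x₂, y], [x₂, 1 - x₁, 3y], [y, 3y, 1 + 4y]]`,
`q = det [[1, x₁, z], [x₁, 1, x₂], [z, x₂, 1]]`.
Both are real zero cubics and `p(x, 0) = q(x, 0) = 1 - x₁² - x₂²`. On six rays (three matrices of
rank one) one of them has a double root, and this forces the derivative of an amalgam in the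
transversal direction to vanish there; the resulting linear equations are inconsistent.
-/

set_option autoImplicit false

namespace Pool.Agent.Results.MP_eea824_ag.NoAmalgam

open MvPolynomial

/-- `f` is a real zero polynomial: if `f (λ a) = 0` with `a` a real vector and `λ` a complex
number, then `λ` is real. -/
def RealZero {σ : Type} (f : MvPolynomial σ ℝ) : Prop :=
  ∀ (a : σ → ℝ) (l : ℂ), aeval (fun i => l * (a i : ℂ)) f = 0 → l.im = 0

/-- `f(x, w) ↦ f(x, 0)`. -/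
noncomputable def atZero {k : ℕ} : MvPolynomial (Fin 2 ⊕ Fin k) ℝ →ₐ[ℝ] MvPolynomial (Fin 2) ℝ :=
  aeval (Sum.elim (fun i => X i) (fun _ => 0))

/-- `r(x, y, z) ↦ r(x, y, 0)`. -/
noncomputable def atZ {m n : ℕ} :
    MvPolynomial (Fin 2 ⊕ (Fin m ⊕ Fin n)) ℝ →ₐ[ℝ] MvPolynomial (Fin 2 ⊕ Fin m) ℝ :=
  aeval (Sum.elim (fun i => X (Sum.inl i)) (Sum.elim (fun j => X (Sum.inr j)) (fun _ => 0)))

/-- `r(x, y, z) ↦ r(x, 0, z)`. -/
noncomputable def atY {m n : ℕ} :
    MvPolynomial (Fin 2 ⊕ (Fin m ⊕ Fin n)) ℝ →ₐ[ℝ] MvPolynomial (Fin 2 ⊕ Fin n) ℝ :=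
  aeval (Sum.elim (fun i => X (Sum.inl i)) (Sum.elim (fun _ => 0) (fun j => X (Sum.inr j))))

/-! ### The Laguerre inequality -/

theorem laguerre (n : ℕ) : ∀ P : Polynomial ℝ, P.natDegree = n → P ≠ 0 →
    (∀ l : ℂ, Polynomial.aeval l P = 0 → l.im = 0) → ∀ u : ℝ,
    0 ≤ (P.derivative.eval u) ^ 2 - P.eval u * P.derivative.derivative.eval u := by
  induction n with
  | zero =>
    intro P hP _ _ u
    obtain ⟨c, rfl⟩ := Polynomial.natDegree_eq_zero.1 hP
    simp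
  | succ n ih =>
    intro P hP hP0 hroot u
    have hdeg : P.degree ≠ 0 := by
      intro h
      rw [Polynomial.degree_eq_natDegree hP0, hP] at h
      norm_cast at h
    obtain ⟨l, hl⟩ := IsAlgClosed.exists_aeval_eq_zero ℂ P hdeg
    have him := hroot l hl
    have hlr : l = ((l.re : ℝ) : ℂ) := Complex.ext (by simp) (by simpa using him)
    have hr : P.eval l.re = 0 := by
      rw [hlr] at hl
      have h1 : Polynomial.aeval ((l.re : ℝ) : ℂ) P = ((P.eval l.re : ℝ) : ℂ) := by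
        rw [← Complex.coe_algebraMap, Polynomial.aeval_algebraMap_apply]
        rfl
      rw [h1] at hl
      exact_mod_cast hl
    obtain ⟨Q, rfl⟩ := Polynomial.dvd_iff_isRoot.2 hr
    set r := l.re with hrdef
    have hQ0 : Q ≠ 0 := right_ne_zero_of_mul hP0
    have hQn : Q.natDegree = n := by
      rw [Polynomial.natDegree_mul (left_ne_zero_of_mul hP0) hQ0, Polynomial.natDegree_X_sub_C] at hP
      omega
    have h := ih Q hQn hQ0 (by
      intro l' hl'
      apply hroot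
      rw [map_mul, hl', mul_zero]) u
    have e : ((Polynomial.X - Polynomial.C r) * Q).derivative.eval u =
        Q.eval u + (u - r) * Q.derivative.eval u := by
      simp [Polynomial.derivative_mul]
    have e2 : ((Polynomial.X - Polynomial.C r) * Q).derivative.derivative.eval u =
        2 * Q.derivative.eval u + (u - r) * Q.derivative.derivative.eval u := by
      simp [Polynomial.derivative_mul]
      ring
    have e3 : ((Polynomial.X - Polynomial.C r) * Q).eval u = (u - r) * Q.eval u := by simp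
    rw [e, e2, e3]
    nlinarith [sq_nonneg (Q.eval u), mul_nonneg (sq_nonneg (u - r)) h]

theorem cubic_ineq (f1 f2 f3 : ℝ)
    (h : ∀ l : ℂ, 1 + f1 * l + f2 * l ^ 2 + f3 * l ^ 3 = 0 → l.im = 0) :
    0 ≤ (f1 + 2 * f2 + 3 * f3) ^ 2 - (1 + f1 + f2 + f3) * (2 * f2 + 6 * f3) := by
  have key := laguerre _ (1 + Polynomial.C f1 * Polynomial.X + Polynomial.C f2 * Polynomial.X ^ 2 +
    Polynomial.C f3 * Polynomial.X ^ 3) rfl (by
      intro h0
      have := congrArg (Polynomial.eval 0) h0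
      simp at this) (by
      intro l hl
      apply h
      simpa using hl) 1
  simp [Polynomial.derivative_mul] at key
  norm_num at key
  nlinarith [key]

/-- If `δ ↦ (δ K + δ² K')² - (δ G + δ² H)(c + δ M + δ² M')` is nonnegative with `c ≠ 0`, then
`G = 0`. -/
theorem first_order (K K' G H c M M' : ℝ) (hc : c ≠ 0)
    (h : ∀ δ : ℝ, 0 ≤ (δ * K + δ ^ 2 * K') ^ 2 - (δ * G + δ ^ 2 * H) * (c + δ * M + δ ^ 2 * M')) :
    G = 0 := by
  have hmin : IsLocalMin (fun δ : ℝ => (δ * K + δ ^ 2 * K') ^ 2 -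
      (δ * G + δ ^ 2 * H) * (c + δ * M + δ ^ 2 * M')) 0 := by
    refine Filter.Eventually.of_forall fun δ => ?_
    simpa using h δ
  have hd : HasDerivAt (fun δ : ℝ => (δ * K + δ ^ 2 * K') ^ 2 -
      (δ * G + δ ^ 2 * H) * (c + δ * M + δ ^ 2 * M')) (-(G * c)) 0 := by
    have h1 : ∀ A B : ℝ, HasDerivAt (fun δ : ℝ => δ * A + δ ^ 2 * B) A 0 := by
      intro A B
      have h3 : HasDerivAt (fun δ : ℝ => δ * A + δ ^ 2 * B)
          (1 * A + ((2 : ℕ) * (0 : ℝ) ^ (2 - 1) * 1) * B) 0 :=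
        ((hasDerivAt_id (0 : ℝ)).mul_const A).add (((hasDerivAt_id (0 : ℝ)).pow 2).mul_const B)
      refine h3.congr_deriv ?_
      simp
    have h2 : HasDerivAt (fun δ : ℝ => (δ * K + δ ^ 2 * K') ^ 2 -
        (δ * G + δ ^ 2 * H) * (c + (δ * M + δ ^ 2 * M'))) _ 0 :=
      ((h1 K K').pow 2).sub ((h1 G H).mul ((h1 M M').const_add c))
    have h4 : (fun δ : ℝ => (δ * K + δ ^ 2 * K') ^ 2 -
        (δ * G + δ ^ 2 * H) * (c + δ * M + δ ^ 2 * M')) = (fun δ : ℝ => (δ * K + δ ^ 2 * K') ^ 2 -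
        (δ * G + δ ^ 2 * H) * (c + (δ * M + δ ^ 2 * M'))) := by
      funext δ; ring
    rw [h4]
    refine h2.congr_deriv ?_
    simp
  have h0 := hmin.hasDerivAt_eq_zero hd
  have : G * c = 0 := by linarith
  exact (mul_eq_zero.1 this).resolve_right hc

/-! ### The two cubics -/

theorem det_root (M : Matrix (Fin 3) (Fin 3) ℝ) (hM : M.transpose = M) (l : ℂ)
    (h : (1 + l • M.map ((↑) : ℝ → ℂ)).det = 0) : l.im = 0 := by
  obtain ⟨v, hv, hv0⟩ := Matrix.exists_mulVec_eq_zero_iff.2 h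
  set A : Matrix (Fin 3) (Fin 3) ℂ := M.map ((↑) : ℝ → ℂ) with hA
  have hherm : A.IsHermitian := by
    ext i j
    have : M j i = M i j := by
      have := congrFun (congrFun hM i) j
      simpa [Matrix.transpose_apply] using this
    simp [hA, Matrix.conjTranspose_apply, this]
  have him : (star v ⬝ᵥ A.mulVec v).im = 0 := hherm.im_star_dotProduct_mulVec_self v
  have hpos : 0 < (star v ⬝ᵥ v).re ∧ (star v ⬝ᵥ v).im = 0 := by
    have h1 : star v ⬝ᵥ v = ((∑ i, Complex.normSq (v i) : ℝ) : ℂ) := by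
      rw [dotProduct]
      push_cast
      refine Finset.sum_congr rfl fun i _ => ?_
      rw [Pi.star_apply, Complex.normSq_eq_conj_mul_self]
      rfl
    rw [h1]
    refine ⟨?_, Complex.ofReal_im _⟩
    rw [Complex.ofReal_re]
    obtain ⟨i, hi⟩ := Function.ne_iff.1 hv
    refine Finset.sum_pos' (fun i _ => Complex.normSq_nonneg _) ⟨i, Finset.mem_univ _, ?_⟩
    exact Complex.normSq_pos.2 hi
  have hsum : star v ⬝ᵥ v + l * (star v ⬝ᵥ A.mulVec v) = 0 := by
    have := congrArg (fun w => star v ⬝ᵥ w) hv0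
    simpa [Matrix.add_mulVec, Matrix.smul_mulVec, dotProduct_add, dotProduct_smul] using this
  set s := star v ⬝ᵥ v with hs
  set t := star v ⬝ᵥ A.mulVec v with ht
  have e1 := congrArg Complex.re hsum
  have e2 := congrArg Complex.im hsum
  simp only [Complex.add_re, Complex.mul_re, Complex.add_im, Complex.mul_im, him, hpos.2,
    mul_zero, sub_zero, zero_add, Complex.zero_re, Complex.zero_im] at e1 e2
  have ht0 : t.re ≠ 0 := by
    intro h0
    rw [h0, mul_zero, add_zero] at e1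
    linarith [hpos.1]
  exact (mul_eq_zero.1 e2).resolve_right ht0

/-- The first cubic. -/
noncomputable def P0 : MvPolynomial (Fin 2 ⊕ Fin 1) ℝ :=
  (1 - X (Sum.inl 0) ^ 2 - X (Sum.inl 1) ^ 2) * (1 + 4 * X (Sum.inr 0)) - 10 * X (Sum.inr 0) ^ 2 -
    8 * X (Sum.inl 0) * X (Sum.inr 0) ^ 2 + 6 * X (Sum.inl 1) * X (Sum.inr 0) ^ 2

/-- The second cubic. -/
noncomputable def Q0 : MvPolynomial (Fin 2 ⊕ Fin 1) ℝ :=
  1 - X (Sum.inl 0) ^ 2 - X (Sum.inl 1) ^ 2 - X (Sum.inr 0) ^ 2 +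
    2 * X (Sum.inl 0) * X (Sum.inl 1) * X (Sum.inr 0)

theorem realZero_P0 : RealZero P0 := by
  intro a l h
  apply det_root !![a (Sum.inl 0), a (Sum.inl 1), a (Sum.inr 0);
    a (Sum.inl 1), -a (Sum.inl 0), 3 * a (Sum.inr 0);
    a (Sum.inr 0), 3 * a (Sum.inr 0), 4 * a (Sum.inr 0)]
  · ext i j; fin_cases i <;> fin_cases j <;> simp
  · rw [Matrix.det_fin_three]
    simp [P0] at h
    simp
    linear_combination h

theorem realZero_Q0 : RealZero Q0 := by
  intro a l h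
  apply det_root !![0, a (Sum.inl 0), a (Sum.inr 0);
    a (Sum.inl 0), 0, a (Sum.inl 1);
    a (Sum.inr 0), a (Sum.inl 1), 0]
  · ext i j; fin_cases i <;> fin_cases j <;> simp
  · rw [Matrix.det_fin_three]
    simp [Q0] at h
    simp
    linear_combination h

/-! ### The shape of an amalgam -/

/-- A point of `ℂ⁴`. -/
def pt (x1 x2 y z : ℂ) : Fin 2 ⊕ (Fin 1 ⊕ Fin 1) → ℂ :=
  Sum.elim ![x1, x2] (Sum.elim (fun _ => y) (fun _ => z))

/-- The monomials of degree at most `3` divisible by `y z`. -/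
noncomputable def mono : Option (Fin 2 ⊕ (Fin 1 ⊕ Fin 1)) → (Fin 2 ⊕ (Fin 1 ⊕ Fin 1)) →₀ ℕ
  | none => Finsupp.single (Sum.inr (Sum.inl 0)) 1 + Finsupp.single (Sum.inr (Sum.inr 0)) 1
  | some i => Finsupp.single (Sum.inr (Sum.inl 0)) 1 + Finsupp.single (Sum.inr (Sum.inr 0)) 1 +
      Finsupp.single i 1

theorem mono_injective : Function.Injective mono := by
  intro a b h
  cases a with
  | none =>
    cases b with
    | none => rfl
    | some j =>
      simp only [mono] at h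
      have h1 : Finsupp.single j 1 = (0 : (Fin 2 ⊕ (Fin 1 ⊕ Fin 1)) →₀ ℕ) := by
        rw [← add_eq_left]; exact h.symm
      rw [Finsupp.single_eq_zero] at h1
      exact absurd h1 one_ne_zero
  | some i =>
    cases b with
    | none =>
      simp only [mono] at h
      have h1 : Finsupp.single i 1 = (0 : (Fin 2 ⊕ (Fin 1 ⊕ Fin 1)) →₀ ℕ) := by
        rw [← add_eq_left]; exact h
      rw [Finsupp.single_eq_zero] at h1
      exact absurd h1 one_ne_zero
    | some j =>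
      simp only [mono] at h
      have h1 := add_left_cancel h
      rw [Finsupp.single_left_injective one_ne_zero h1]

theorem mono_surj (s : (Fin 2 ⊕ (Fin 1 ⊕ Fin 1)) →₀ ℕ) (hs : s.degree ≤ 3)
    (hy : s (Sum.inr (Sum.inl 0)) ≠ 0) (hz : s (Sum.inr (Sum.inr 0)) ≠ 0) : ∃ o, mono o = s := by
  have hle : Finsupp.single (Sum.inr (Sum.inl 0)) 1 + Finsupp.single (Sum.inr (Sum.inr 0)) 1 ≤ s := by
    intro i
    rcases i with i | i | i
    · simp
    · fin_cases i
      simpa using Nat.one_le_iff_ne_zero.2 hy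
    · fin_cases i
      simpa using Nat.one_le_iff_ne_zero.2 hz
  obtain ⟨t, ht⟩ := exists_add_of_le hle
  have hdeg : t.degree ≤ 1 := by
    have := congrArg Finsupp.degree ht
    rw [map_add, map_add, Finsupp.degree_single, Finsupp.degree_single] at this
    omega
  by_cases h0 : t.degree = 0
  · rw [Finsupp.degree_eq_zero_iff] at h0
    refine ⟨none, ?_⟩
    rw [ht, h0, add_zero]
    rfl
  · have h1 : t.degree = 1 := by omega
    have h2 : t ∈ Set.range (fun i : Fin 2 ⊕ (Fin 1 ⊕ Fin 1) => Finsupp.single i 1) := by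
      rw [Finsupp.range_single_one]
      exact h1
    obtain ⟨i, hi⟩ := h2
    refine ⟨some i, ?_⟩
    rw [ht, ← hi]
    rfl

/-- The value at a point of one term of a polynomial. -/
noncomputable def term (r : MvPolynomial (Fin 2 ⊕ (Fin 1 ⊕ Fin 1)) ℝ)
    (s : (Fin 2 ⊕ (Fin 1 ⊕ Fin 1)) →₀ ℕ) (x1 x2 y z : ℂ) : ℂ :=
  ((coeff s r : ℝ) : ℂ) * (x1 ^ s (Sum.inl 0) * x2 ^ s (Sum.inl 1) * (y ^ s (Sum.inr (Sum.inl 0)) *
    z ^ s (Sum.inr (Sum.inr 0))))

theorem aeval_eq (r : MvPolynomial (Fin 2 ⊕ (Fin 1 ⊕ Fin 1)) ℝ) (x1 x2 y z : ℂ) :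
    aeval (pt x1 x2 y z) r = ∑ s ∈ r.support, term r s x1 x2 y z := by
  rw [aeval_def, eval₂_eq']
  refine Finset.sum_congr rfl fun s _ => ?_
  simp [term, pt, Fintype.prod_sum_type, Fin.prod_univ_two]

theorem shape (r : MvPolynomial (Fin 2 ⊕ (Fin 1 ⊕ Fin 1)) ℝ) (hr : r.totalDegree ≤ 3) :
    ∃ c a1 a2 ay az : ℝ, ∀ x1 x2 y z : ℂ, aeval (pt x1 x2 y z) r =
      aeval (pt x1 x2 y 0) r + aeval (pt x1 x2 0 z) r - aeval (pt x1 x2 0 0) r +
        y * z * (c + a1 * x1 + a2 * x2 + ay * y + az * z) := by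
  refine ⟨coeff (mono none) r, coeff (mono (some (Sum.inl 0))) r, coeff (mono (some (Sum.inl 1))) r,
    coeff (mono (some (Sum.inr (Sum.inl 0)))) r, coeff (mono (some (Sum.inr (Sum.inr 0)))) r, ?_⟩
  intro x1 x2 y z
  have h1 : aeval (pt x1 x2 y z) r - aeval (pt x1 x2 y 0) r - aeval (pt x1 x2 0 z) r +
      aeval (pt x1 x2 0 0) r = ∑ s ∈ r.support.filter (fun s => s (Sum.inr (Sum.inl 0)) ≠ 0 ∧
        s (Sum.inr (Sum.inr 0)) ≠ 0), term r s x1 x2 y z := by
    rw [aeval_eq, aeval_eq, aeval_eq, aeval_eq, ← Finset.sum_sub_distrib, ← Finset.sum_sub_distrib,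
      ← Finset.sum_add_distrib, Finset.sum_filter]
    refine Finset.sum_congr rfl fun s _ => ?_
    simp only [term]
    by_cases hy : s (Sum.inr (Sum.inl 0)) = 0
    · rw [hy]
      simp
    · by_cases hz : s (Sum.inr (Sum.inr 0)) = 0
      · rw [hz]
        simp
      · simp [hy, hz]
  have h2 : ∑ s ∈ r.support.filter (fun s => s (Sum.inr (Sum.inl 0)) ≠ 0 ∧
        s (Sum.inr (Sum.inr 0)) ≠ 0), term r s x1 x2 y z =
      ∑ o : Option (Fin 2 ⊕ (Fin 1 ⊕ Fin 1)), term r (mono o) x1 x2 y z := by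
    classical
    rw [← Finset.sum_image (s := Finset.univ) (g := mono) (f := fun s => term r s x1 x2 y z)
      (fun a _ b _ h => mono_injective h)]
    apply Finset.sum_subset
    · intro s hs
      rw [Finset.mem_filter] at hs
      obtain ⟨o, ho⟩ := mono_surj s ((le_totalDegree hs.1).trans hr) hs.2.1 hs.2.2
      rw [Finset.mem_image]
      exact ⟨o, Finset.mem_univ _, ho⟩
    · intro s hs hs'
      rw [Finset.mem_image] at hs
      obtain ⟨o, -, rfl⟩ := hs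
      have hyz : mono o (Sum.inr (Sum.inl 0)) ≠ 0 ∧ mono o (Sum.inr (Sum.inr 0)) ≠ 0 := by
        cases o <;> simp [mono]
      have h3 : mono o ∉ r.support := fun h => hs' (Finset.mem_filter.2 ⟨h, hyz⟩)
      rw [notMem_support_iff] at h3
      simp [term, h3]
  have h3 : ∑ o : Option (Fin 2 ⊕ (Fin 1 ⊕ Fin 1)), term r (mono o) x1 x2 y z =
      y * z * (((coeff (mono none) r : ℝ) : ℂ) + ((coeff (mono (some (Sum.inl 0))) r : ℝ) : ℂ) * x1 +
        ((coeff (mono (some (Sum.inl 1))) r : ℝ) : ℂ) * x2 +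
        ((coeff (mono (some (Sum.inr (Sum.inl 0)))) r : ℝ) : ℂ) * y +
        ((coeff (mono (some (Sum.inr (Sum.inr 0)))) r : ℝ) : ℂ) * z) := by
    rw [Fintype.sum_option, Fintype.sum_sum_type, Fintype.sum_sum_type]
    simp only [Fin.sum_univ_two, Fin.sum_univ_one, term]
    simp [mono]
    ring
  rw [h2, h3] at h1
  linear_combination h1

/-! ### No amalgam -/

section main

variable (r : MvPolynomial (Fin 2 ⊕ (Fin 1 ⊕ Fin 1)) ℝ)

theorem eval_atZ (hp : atZ (m := 1) (n := 1) r = P0) (x1 x2 y : ℂ) :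
    aeval (pt x1 x2 y 0) r = (1 - x1 ^ 2 - x2 ^ 2) * (1 + 4 * y) - 10 * y ^ 2 - 8 * x1 * y ^ 2 +
      6 * x2 * y ^ 2 := by
  have h : aeval (Sum.elim ![x1, x2] (fun _ => y) : Fin 2 ⊕ Fin 1 → ℂ) (atZ (m := 1) (n := 1) r) =
      aeval (pt x1 x2 y 0) r := by
    rw [atZ, ← AlgHom.comp_apply, comp_aeval]
    congr 2
    funext i
    rcases i with i | i | i <;> simp [pt]
  rw [← h, hp]
  simp [P0]

theorem eval_atY (hq : atY (m := 1) (n := 1) r = Q0) (x1 x2 z : ℂ) :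
    aeval (pt x1 x2 0 z) r = 1 - x1 ^ 2 - x2 ^ 2 - z ^ 2 + 2 * x1 * x2 * z := by
  have h : aeval (Sum.elim ![x1, x2] (fun _ => z) : Fin 2 ⊕ Fin 1 → ℂ) (atY (m := 1) (n := 1) r) =
      aeval (pt x1 x2 0 z) r := by
    rw [atY, ← AlgHom.comp_apply, comp_aeval]
    congr 2
    funext i
    rcases i with i | i | i <;> simp [pt]
  rw [← h, hq]
  simp [Q0]

/-- The inequality satisfied along every ray. -/
theorem ray (hr : RealZero r) (hp : atZ (m := 1) (n := 1) r = P0)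
    (hq : atY (m := 1) (n := 1) r = Q0) (c a1 a2 ay az : ℝ)
    (hs : ∀ x1 x2 y z : ℂ, aeval (pt x1 x2 y z) r =
      aeval (pt x1 x2 y 0) r + aeval (pt x1 x2 0 z) r - aeval (pt x1 x2 0 0) r +
        y * z * (c + a1 * x1 + a2 * x2 + ay * y + az * z)) (x1 x2 y z f1 f2 f3 : ℝ)
    (h1 : f1 = 4 * y) (h2 : f2 = -(x1 ^ 2 + x2 ^ 2) - 10 * y ^ 2 - z ^ 2 + c * y * z)
    (h3 : f3 = -4 * y * (x1 ^ 2 + x2 ^ 2) + (-8 * x1 + 6 * x2) * y ^ 2 + 2 * x1 * x2 * z +
      y * z * (a1 * x1 + a2 * x2 + ay * y + az * z)) :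
    0 ≤ (f1 + 2 * f2 + 3 * f3) ^ 2 - (1 + f1 + f2 + f3) * (2 * f2 + 6 * f3) := by
  apply cubic_ineq
  intro l hl
  apply hr (Sum.elim ![x1, x2] (Sum.elim (fun _ => y) (fun _ => z))) l
  have e : (fun i => l * ((Sum.elim ![x1, x2] (Sum.elim (fun _ => y) (fun _ => z)) :
      Fin 2 ⊕ (Fin 1 ⊕ Fin 1) → ℝ) i : ℂ)) = pt (l * x1) (l * x2) (l * y) (l * z) := by
    funext i
    rcases i with i | i | i
    · fin_cases i <;> simp [pt]
    · simp [pt]
    · simp [pt]
  have e1 : (f1 : ℂ) = 4 * y := by rw [h1]; push_cast; rfl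
  have e2 : (f2 : ℂ) = -(x1 ^ 2 + x2 ^ 2) - 10 * y ^ 2 - z ^ 2 + c * y * z := by
    rw [h2]; push_cast; rfl
  have e3 : (f3 : ℂ) = -4 * y * (x1 ^ 2 + x2 ^ 2) + (-8 * x1 + 6 * x2) * y ^ 2 +
      2 * x1 * x2 * z + y * z * (a1 * x1 + a2 * x2 + ay * y + az * z) := by
    rw [h3]; push_cast; rfl
  refine Eq.trans ?_ hl
  rw [e, hs, eval_atZ r hp, eval_atY r hq, eval_atZ r hp, e1, e2, e3]
  ring

end main

theorem deg_le {σ : Type} {a b : MvPolynomial σ ℝ} {k l : ℕ} (ha : a.totalDegree ≤ k)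
    (hb : b.totalDegree ≤ l) : (a * b).totalDegree ≤ k + l :=
  (totalDegree_mul a b).trans (add_le_add ha hb)

theorem deg_const {σ : Type} (c : ℝ) (n : ℕ) : (C c : MvPolynomial σ ℝ).totalDegree ≤ n := by
  rw [totalDegree_C]; exact Nat.zero_le _

theorem deg_X {σ : Type} (i : σ) (k n : ℕ) (h : k ≤ n) :
    (X i ^ k : MvPolynomial σ ℝ).totalDegree ≤ n := by
  rw [totalDegree_X_pow]; exact h

theorem deg_add {σ : Type} {a b : MvPolynomial σ ℝ} {k : ℕ} (ha : a.totalDegree ≤ k)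
    (hb : b.totalDegree ≤ k) : (a + b).totalDegree ≤ k :=
  (totalDegree_add a b).trans (max_le ha hb)

theorem deg_sub {σ : Type} {a b : MvPolynomial σ ℝ} {k : ℕ} (ha : a.totalDegree ≤ k)
    (hb : b.totalDegree ≤ k) : (a - b).totalDegree ≤ k :=
  (totalDegree_sub a b).trans (max_le ha hb)

theorem deg_P0 : P0.totalDegree ≤ 3 := by
  have e : P0 = (C 1 - X (Sum.inl 0) ^ 2 - X (Sum.inl 1) ^ 2) * (C 1 + C 4 * X (Sum.inr 0) ^ 1) -
      C 10 * X (Sum.inr 0) ^ 2 - C 8 * X (Sum.inl 0) ^ 1 * X (Sum.inr 0) ^ 2 +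
      C 6 * X (Sum.inl 1) ^ 1 * X (Sum.inr 0) ^ 2 := by
    simp only [P0, map_ofNat, C_1, pow_one]
  rw [e]
  refine deg_add (deg_sub (deg_sub ?_ ?_) ?_) ?_
  · exact deg_le (k := 2) (l := 1) (deg_sub (deg_sub (deg_const _ _) (deg_X _ _ _ le_rfl))
      (deg_X _ _ _ le_rfl)) (deg_add (deg_const _ _) (deg_le (k := 0) (l := 1) (deg_const _ _)
      (deg_X _ _ _ le_rfl)))
  · exact deg_le (k := 1) (l := 2) (deg_const _ _) (deg_X _ _ _ le_rfl)
  · exact deg_le (k := 1) (l := 2) (deg_le (k := 0) (l := 1) (deg_const _ _) (deg_X _ _ _ le_rfl))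
      (deg_X _ _ _ le_rfl)
  · exact deg_le (k := 1) (l := 2) (deg_le (k := 0) (l := 1) (deg_const _ _) (deg_X _ _ _ le_rfl))
      (deg_X _ _ _ le_rfl)

theorem deg_Q0 : Q0.totalDegree ≤ 3 := by
  have e : Q0 = C 1 - X (Sum.inl 0) ^ 2 - X (Sum.inl 1) ^ 2 - X (Sum.inr 0) ^ 2 +
      C 2 * X (Sum.inl 0) ^ 1 * X (Sum.inl 1) ^ 1 * X (Sum.inr 0) ^ 1 := by
    simp only [Q0, map_ofNat, C_1, pow_one]
  rw [e]
  refine deg_add (deg_sub (deg_sub (deg_sub (deg_const _ _) ?_) ?_) ?_) ?_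
  · exact deg_X _ _ _ (by norm_num)
  · exact deg_X _ _ _ (by norm_num)
  · exact deg_X _ _ _ (by norm_num)
  · exact deg_le (k := 2) (l := 1) (deg_le (k := 1) (l := 1) (deg_le (k := 0) (l := 1)
      (deg_const _ _) (deg_X _ _ _ le_rfl)) (deg_X _ _ _ le_rfl)) (deg_X _ _ _ le_rfl)

/-- **Degree-preserving amalgamation fails** for cubics with `m = n = 1`: there are real zero
polynomials `p ∈ ℝ[x₁, x₂, y]` and `q ∈ ℝ[x₁, x₂, z]` of degree at most `3` with
`p(x, 0) = q(x, 0)` such that no real zero polynomial `r ∈ ℝ[x₁, x₂, y, z]` of degree at most `3`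
satisfies `r(x, y, 0) = p` and `r(x, 0, z) = q`. -/
theorem result :
    ∃ (p q : MvPolynomial (Fin 2 ⊕ Fin 1) ℝ), RealZero p ∧ RealZero q ∧
      p.totalDegree ≤ 3 ∧ q.totalDegree ≤ 3 ∧ atZero p = atZero q ∧
      ∀ r : MvPolynomial (Fin 2 ⊕ (Fin 1 ⊕ Fin 1)) ℝ, RealZero r → r.totalDegree ≤ 3 →
        atZ r = p → atY r ≠ q := by
  refine ⟨P0, Q0, realZero_P0, realZero_Q0, deg_P0, deg_Q0, ?_, ?_⟩
  · simp [P0, Q0, atZero]
  · intro r hr hdeg hp hq
    obtain ⟨c, a1, a2, ay, az, hs⟩ := shape r hdeg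
    have key := ray r hr hp hq c a1 a2 ay az hs
    -- the four rays of the second cubic
    have hQ : ∀ e1 e2 : ℝ, e1 ^ 2 = 1 → e2 ^ 2 = 1 →
        -4 + e1 * e2 * (c + a1 * e1 + a2 * e2 + az * (e1 * e2)) = 0 := by
      intro e1 e2 h1 h2
      apply first_order (4 - 4 * 2 * 3 + e1 * e2 * (2 * c + 3 * (a1 * e1 + a2 * e2 + az * (e1 * e2))))
        (-20 + 3 * (-8 * e1 + 6 * e2) + 3 * ay * (e1 * e2)) _ (-10 + (-8 * e1 + 6 * e2) + ay * (e1 * e2)) 6
        (e1 * e2 * 2 * c + 6 * (-4 * 2 + e1 * e2 * (a1 * e1 + a2 * e2 + az * (e1 * e2))))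
        (-20 + 6 * (-8 * e1 + 6 * e2) + 6 * ay * (e1 * e2)) (by norm_num)
      intro δ
      have h := key e1 e2 δ (e1 * e2) _ _ _ rfl rfl rfl
      have e3 : (e1 * e2) ^ 2 = 1 := by rw [mul_pow, h1, h2, one_mul]
      have e4 : 2 * e1 * e2 * (e1 * e2) = 2 := by linear_combination 2 * e3
      rw [h1, h2, e3, e4] at h
      refine le_of_le_of_eq h ?_
      ring
    -- the two rays of the first cubic
    have hP : ∀ w t : ℝ, -2 - 8 * w + 10 * w ^ 2 = 0 → t = -2 - 24 * w + 40 * w ^ 2 → t ≠ 0 →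
        -24 / 25 + w * (c + (-4 / 5 * a1 + 3 / 5 * a2 + ay * w)) = 0 := by
      intro w t hw ht ht0
      apply first_order (2 * c * w - 72 / 25 + 3 * w * (-4 / 5 * a1 + 3 / 5 * a2 + ay * w))
        (-2 + 3 * w * az) _ (-1 + w * az) t
        (2 * c * w - 144 / 25 + 6 * w * (-4 / 5 * a1 + 3 / 5 * a2 + ay * w))
        (-2 + 6 * w * az) ht0
      intro δ
      have h := key (-4 / 5) (3 / 5) w δ _ _ _ rfl rfl rfl
      refine le_of_le_of_eq h ?_
      rw [ht]
      linear_combination (-2 - 8 * w + 10 * w ^ 2 + 2 * (δ * (2 * c * w - 72 / 25 +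
        3 * w * (-4 / 5 * a1 + 3 / 5 * a2 + ay * w)) + δ ^ 2 * (-2 + 3 * w * az))) * hw
    have e1 := hQ 1 1 (by norm_num) (by norm_num)
    have e2 := hQ 1 (-1) (by norm_num) (by norm_num)
    have e3 := hQ (-1) 1 (by norm_num) (by norm_num)
    have e4 := hQ (-1) (-1) (by norm_num) (by norm_num)
    have e5 := hP 1 14 (by norm_num) (by norm_num) (by norm_num)
    have e6 := hP (-1 / 5) (22 / 5) (by norm_num) (by norm_num) (by norm_num)
    linarith

end Pool.Agent.Results.MP_eea824_ag.NoAmalgam
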